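import Mathlib

namespace Pool.Agent.H.MP_af1bb3_co

open Finset

lemma choose_ratio (C t : ℕ) (hC : 3 ≤ C) (ht : 1 ≤ t) (i : ℕ) (hi : i ≤ t) :
    (((C * t).choose t : ℕ) : ℝ) * (((C:ℝ) - 2) / ((C:ℝ) - 1)) ^ i ≤ ((C * t - i).choose t : ℕ) := by
  induction i with
  | zero => simp
  | succ i ih =>
    have ih := ih (by omega)
    have hC' : (3:ℝ) ≤ C := by exact_mod_cast hC
    have h3 : 3 * t ≤ C * t := Nat.mul_le_mul_right t hC
    obtain ⟨a, ha⟩ : ∃ a, C * t - i = a + 1 := ⟨C * t - i - 1, by omega⟩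
    have ha' : C * t - (i + 1) = a := by omega
    rw [ha] at ih
    rw [ha', pow_succ, ← mul_assoc]
    have h1 := Nat.choose_mul_succ_eq a t
    have h2 : t ≤ a + 1 := by omega
    have h1' : ((a.choose t : ℕ) : ℝ) * ((a:ℝ) + 1) = (((a+1).choose t : ℕ) : ℝ) * ((a:ℝ) + 1 - t) := by
      have := congrArg (fun n : ℕ => (n:ℝ)) h1
      simp only [Nat.cast_mul, Nat.cast_sub h2] at this
      push_cast at this ⊢
      exact this
    have hr : ((C:ℝ) - 2) / ((C:ℝ) - 1) * ((a:ℝ) + 1) ≤ (a:ℝ) + 1 - t := by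
      rw [div_mul_eq_mul_div, div_le_iff₀ (by linarith)]
      have h4 : C * t ≤ a + 1 + t := by omega
      have h4' : (C:ℝ) * t ≤ a + 1 + t := by exact_mod_cast h4
      nlinarith
    have hpos : (0:ℝ) < (a:ℝ) + 1 := by positivity
    have hρ : (0:ℝ) ≤ ((C:ℝ) - 2) / ((C:ℝ) - 1) := div_nonneg (by linarith) (by linarith)
    have h5 : (((a+1).choose t : ℕ) : ℝ) * (((C:ℝ) - 2) / ((C:ℝ) - 1)) ≤ ((a.choose t : ℕ) : ℝ) := by
      apply le_of_mul_le_mul_right _ hpos
      rw [h1', mul_assoc]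
      exact mul_le_mul_of_nonneg_left hr (by positivity)
    exact le_trans (mul_le_mul_of_nonneg_right ih hρ) h5

lemma rho_ge (C t : ℕ) (hC : 3 ≤ C) :
    Real.exp (-((t:ℝ) / ((C:ℝ) - 2))) ≤ (((C:ℝ) - 2) / ((C:ℝ) - 1)) ^ t := by
  have hC' : (3:ℝ) ≤ C := by exact_mod_cast hC
  have h1 : Real.exp (-(1 / ((C:ℝ) - 2))) ≤ ((C:ℝ) - 2) / ((C:ℝ) - 1) := by
    rw [Real.exp_neg, inv_le_comm₀ (Real.exp_pos _) (div_pos (by linarith) (by linarith)), inv_div]
    refine le_trans (le_of_eq ?_) (Real.add_one_le_exp _)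
    have : (C:ℝ) - 2 ≠ 0 := by linarith
    field_simp
    ring
  have h2 : -((t:ℝ) / ((C:ℝ) - 2)) = t * (-(1 / ((C:ℝ) - 2))) := by ring
  rw [h2, Real.exp_nat_mul]
  exact pow_le_pow_left₀ (Real.exp_pos _).le h1 t

lemma hit (C t : ℕ) (hC : 3 ≤ C) (ht : 1 ≤ t) :
    ∃ (y : ℕ) (f : Fin y → Finset (Fin (C * t))), (∀ a, (f a).card = t) ∧
      (∀ T : Finset (Fin (C * t)), T.card ≤ t → ∃ a, Disjoint (f a) T) ∧
      (y:ℝ) ≤ 2 * C * t * Real.exp ((t:ℝ) / ((C:ℝ) - 2)) := by
  classical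
  have hC' : (3:ℝ) ≤ C := by exact_mod_cast hC
  have ht' : (1:ℝ) ≤ t := by exact_mod_cast ht
  set E := Real.exp ((t:ℝ) / ((C:ℝ) - 2)) with hE
  have hE1 : 1 ≤ E := Real.one_le_exp (div_nonneg (by linarith) (by linarith))
  set y := ⌊(C:ℝ) * t * E⌋₊ + 1 with hy
  have hy1 : (C:ℝ) * t * E < y := by rw [hy]; push_cast; exact Nat.lt_floor_add_one _
  have hCt : (1:ℝ) ≤ (C:ℝ) * t * E := by
    have : (1:ℝ) ≤ (C:ℝ) * t := by nlinarith
    nlinarith
  have hy2 : (y:ℝ) ≤ 2 * C * t * E := by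
    rw [hy]; push_cast
    have := Nat.floor_le (show (0:ℝ) ≤ (C:ℝ) * t * E by linarith)
    linarith
  set Ω := powersetCard t (univ : Finset (Fin (C * t))) with hΩ
  have hΩc : Ω.card = (C * t).choose t := by simp [hΩ]
  have hΩp : (0:ℝ) < Ω.card := by
    rw [hΩc]; exact_mod_cast Nat.choose_pos (Nat.le_mul_of_pos_left t (by omega))
  set 𝒯 := (univ : Finset (Finset (Fin (C * t)))).filter (fun T => T.card ≤ t) with h𝒯
  set bad : Finset (Fin (C * t)) → Finset (Finset (Fin (C * t))) :=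
    fun T => Ω \ powersetCard t (univ \ T) with hbad
  have hb : ∀ T ∈ 𝒯, ((bad T).card : ℝ) ≤ Real.exp (-E⁻¹) * Ω.card := by
    intro T hT
    have hT' : T.card ≤ t := (mem_filter.mp hT).2
    have hsub : powersetCard t (univ \ T) ⊆ Ω := powersetCard_mono sdiff_subset
    have h1 : (bad T).card + (powersetCard t (univ \ T)).card = Ω.card := card_sdiff_add_card_eq_card hsub
    have h2 : (powersetCard t (univ \ T)).card = (C * t - T.card).choose t := by
      rw [card_powersetCard, card_univ_sdiff, Fintype.card_fin]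
    have h3 : (C * t - t).choose t ≤ (C * t - T.card).choose t := Nat.choose_le_choose _ (by omega)
    have h4 := choose_ratio C t hC ht t le_rfl
    have h5 := rho_ge C t hC
    rw [Real.exp_neg, ← hE] at h5
    have h6 : (Ω.card : ℝ) * E⁻¹ ≤ ((powersetCard t (univ \ T)).card : ℝ) := by
      rw [h2]
      refine le_trans ?_ (Nat.cast_le.mpr h3)
      refine le_trans ?_ h4
      rw [hΩc]
      exact mul_le_mul_of_nonneg_left h5 (by positivity)
    have h1' : ((bad T).card : ℝ) + (powersetCard t (univ \ T)).card = Ω.card := by exact_mod_cast h1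
    have h7 := Real.add_one_le_exp (-E⁻¹)
    nlinarith
  have hcard : ((𝒯.biUnion fun T => Fintype.piFinset (fun _ : Fin y => bad T)).card : ℝ) <
      (Fintype.piFinset (fun _ : Fin y => Ω)).card := by
    refine lt_of_le_of_lt (Nat.cast_le.mpr card_biUnion_le) ?_
    push_cast
    have h1 : ∑ T ∈ 𝒯, ((Fintype.piFinset (fun _ : Fin y => bad T)).card : ℝ) ≤
        ∑ T ∈ 𝒯, (Real.exp (-E⁻¹) * Ω.card) ^ y := by
      refine sum_le_sum fun T hT => ?_
      rw [Fintype.card_piFinset_const]; push_cast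
      exact pow_le_pow_left₀ (by positivity) (hb T hT) y
    refine lt_of_le_of_lt h1 ?_
    rw [sum_const, nsmul_eq_mul, Fintype.card_piFinset_const, mul_pow, ← mul_assoc]
    push_cast
    refine mul_lt_of_lt_one_left (by positivity) ?_
    have h2 : (𝒯.card : ℝ) ≤ Real.exp ((C:ℝ) * t) := by
      have h3 : 𝒯.card ≤ 2 ^ (C * t) := by
        refine le_trans (card_filter_le _ _) ?_
        simp
      refine le_trans (Nat.cast_le.mpr h3) ?_
      have : (C:ℝ) * t = ((C * t : ℕ) : ℝ) * 1 := by push_cast; ring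
      rw [this, Real.exp_nat_mul]; push_cast
      refine pow_le_pow_left₀ (by norm_num) ?_ _
      have := Real.add_one_le_exp 1
      linarith
    refine lt_of_le_of_lt (mul_le_mul_of_nonneg_right h2 (by positivity)) ?_
    rw [← Real.exp_nat_mul, ← Real.exp_add, Real.exp_lt_one_iff]
    have hE0 : 0 < E := by linarith
    have : (C:ℝ) * t < y * E⁻¹ := by
      rw [← div_eq_mul_inv, lt_div_iff₀ hE0]; exact hy1
    linarith
  obtain ⟨g, hg1, hg2⟩ := exists_mem_notMem_of_card_lt_card (Nat.cast_lt.mp hcard)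
  refine ⟨y, g, fun a => ?_, fun T hT => ?_, hy2⟩
  · exact (mem_powersetCard.mp (Fintype.mem_piFinset.mp hg1 a)).2
  · by_contra hcon
    apply hg2
    refine mem_biUnion.mpr ⟨T, mem_filter.mpr ⟨mem_univ _, hT⟩, Fintype.mem_piFinset.mpr fun a => ?_⟩
    refine mem_sdiff.mpr ⟨Fintype.mem_piFinset.mp hg1 a, fun h => hcon ⟨a, ?_⟩⟩
    exact disjoint_left.mpr fun i hi hi' => (mem_sdiff.mp ((mem_powersetCard.mp h).1 hi)).2 hi'

lemma sys (C t : ℕ) (hC : 3 ≤ C) (ht : 1 ≤ t) :
    ∃ (x : ℕ) (f : Fin x → Finset (Fin (C * t))), (∀ a, (f a).card = t) ∧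
      (∀ T : Finset (Fin (C * t)), t ≤ T.card + (univ.filter fun a => Disjoint (f a) T).card) ∧
      (x:ℝ) ≤ 2 * C * t ^ 2 * Real.exp ((t:ℝ) / ((C:ℝ) - 2)) := by
  classical
  obtain ⟨y, f, h1, h2, h3⟩ := hit C t hC ht
  refine ⟨t * y, fun a => f (finProdFinEquiv.symm a).2, fun a => h1 _, fun T => ?_, ?_⟩
  · by_cases hT : T.card ≤ t
    · obtain ⟨a, ha⟩ := h2 T hT
      refine le_trans ?_ (Nat.le_add_left _ _)
      have : (univ : Finset (Fin t)).card ≤
          (univ.filter fun b : Fin (t * y) => Disjoint (f (finProdFinEquiv.symm b).2) T).card := by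
        refine card_le_card_of_injOn (fun c => finProdFinEquiv (c, a)) ?_ ?_
        · intro c _
          simp only [coe_filter, mem_univ, true_and, Set.mem_ofPred_eq, Equiv.symm_apply_apply]
          exact ha
        · intro c _ c' _ h
          simpa using h
      simpa using this
    · omega
  · push_cast
    have : (0:ℝ) ≤ t := by positivity
    nlinarith

end Pool.Agent.H.MP_af1bb3_co
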