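import Mathlib
import Pool.Agent.H.MP_af1bb3_co.A

namespace Pool.Agent.H.MP_af1bb3_co

open Finset

section
variable {Q X U I J B : Type} (f : X → Finset I) (g : U → Finset J) (τ : B → Q × I × J)

def rel : (Q × X) ⊕ (Q × X × U) ⊕ B → (Q × X) ⊕ (Q × X × U) ⊕ B → Prop
  | Sum.inl a, Sum.inr (Sum.inl p) => a.1 = p.1 ∧ a.2 = p.2.1
  | Sum.inl a, Sum.inr (Sum.inr β) => (τ β).1 = a.1 ∧ (τ β).2.1 ∈ f a.2
  | Sum.inr (Sum.inl p), Sum.inr (Sum.inr β) => (τ β).1 = p.1 ∧ (τ β).2.2 ∈ g p.2.2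
  | Sum.inr (Sum.inr _), Sum.inr (Sum.inr _) => True
  | _, _ => False

def gr : SimpleGraph ((Q × X) ⊕ (Q × X × U) ⊕ B) := SimpleGraph.fromRel (rel f g τ)

def blk : (Q × X) ⊕ (Q × X × U) ⊕ B → Q
  | Sum.inl a => a.1
  | Sum.inr (Sum.inl p) => p.1
  | Sum.inr (Sum.inr β) => (τ β).1

lemma adj_S (a : Q × X) (w) (h : (gr f g τ).Adj (Sum.inl a) w) :
    (∃ u, w = Sum.inr (Sum.inl (a.1, a.2, u))) ∨
      ∃ β, w = Sum.inr (Sum.inr β) ∧ (τ β).1 = a.1 ∧ (τ β).2.1 ∈ f a.2 := by
  rcases w with b | p | β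
  · simp [gr, rel] at h
  · left
    obtain ⟨j, s, u⟩ := p
    simp [gr, rel] at h
    exact ⟨u, by rw [h.1, h.2]⟩
  · right
    simp [gr, rel] at h
    exact ⟨β, rfl, h⟩

lemma adj_P (p : Q × X × U) (w) (h : (gr f g τ).Adj (Sum.inr (Sum.inl p)) w) :
    w = Sum.inl (p.1, p.2.1) ∨
      ∃ β, w = Sum.inr (Sum.inr β) ∧ (τ β).1 = p.1 ∧ (τ β).2.2 ∈ g p.2.2 := by
  rcases w with b | p' | β
  · left
    obtain ⟨j, s⟩ := b
    simp [gr, rel] at h
    rw [h.1, h.2]
  · simp [gr, rel] at h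
  · right
    simp [gr, rel] at h
    exact ⟨β, rfl, h⟩

lemma lower [Fintype Q] [Fintype X] [Fintype U] [Fintype B] [DecidableEq I] [DecidableEq J]
    (t : ℕ) (hx : 2 ≤ Fintype.card X)
    (h1 : ∀ T : Finset I, t ≤ T.card + (univ.filter fun a => Disjoint (f a) T).card)
    (h2 : ∀ T : Finset J, Fintype.card X + t ≤ T.card + (univ.filter fun a => Disjoint (g a) T).card)
    (D : Finset ((Q × X) ⊕ (Q × X × U) ⊕ B))
    (hD : ∀ v, v ∉ D → ∃ w ∈ D, (gr f g τ).Adj v w)
    (hT : 2 ≤ D.card → ∀ v ∈ D, ∃ w ∈ D, (gr f g τ).Adj v w) :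
    Fintype.card Q * (Fintype.card X + t) ≤ D.card := by
  classical
  rw [card_eq_sum_card_fiberwise (f := blk τ) (t := univ) (fun _ _ => mem_coe.mpr (mem_univ _))]
  rw [← card_univ (α := Q), ← smul_eq_mul, ← sum_const]
  refine sum_le_sum fun j _ => ?_
  set DS : Finset X := univ.filter fun s => Sum.inl (j, s) ∈ D with hDS
  set DP : Finset (X × U) := univ.filter fun p => Sum.inr (Sum.inl (j, p)) ∈ D with hDP
  set DB : Finset B := univ.filter fun β => Sum.inr (Sum.inr β) ∈ D ∧ (τ β).1 = j with hDB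
  have hsum : DS.card + (DP.card + DB.card) ≤ (D.filter fun v => blk τ v = j).card := by
    rw [← card_disjSum, ← card_disjSum]
    refine card_le_card_of_injOn
      (Sum.map (fun s => (j, s)) (Sum.map (fun p => (j, p)) id)) ?_ ?_
    · rintro (s | p | β) h
      · simpa [blk, hDS] using h
      · simpa [blk, hDP] using h
      · simpa [blk, hDB] using h
    · rintro (s | p | β) _ (s' | p' | β') _ h <;> simp at h ⊢ <;> exact h
  refine le_trans ?_ hsum
  by_cases hall : ∀ s, Sum.inl (j, s) ∈ D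
  · have hS : DS.card = Fintype.card X := by
      rw [← card_univ]; congr 1; ext s; simp [hDS, hall s]
    have h2D : 2 ≤ D.card := by
      have := card_filter_le D fun v => blk τ v = j
      omega
    have h3 := h1 (DB.image fun β => (τ β).2.1)
    have h4 := card_image_le (s := DB) (f := fun β => (τ β).2.1)
    have h5 : (univ.filter fun a => Disjoint (f a) (DB.image fun β => (τ β).2.1)) ⊆ DP.image Prod.fst := by
      intro s hs
      obtain ⟨w, hw, hadj⟩ := hT h2D _ (hall s)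
      rcases adj_S f g τ _ _ hadj with ⟨u, rfl⟩ | ⟨β, rfl, hb1, hb2⟩
      · exact mem_image.mpr ⟨(s, u), by simpa [hDP] using hw, rfl⟩
      · exact absurd (mem_image.mpr ⟨β, by simp [hDB, hw, hb1], rfl⟩)
          (disjoint_left.mp (mem_filter.mp hs).2 hb2)
    have h6 := le_trans (card_le_card h5) card_image_le
    omega
  · push Not at hall
    obtain ⟨s, hs⟩ := hall
    have h3 := h2 (DB.image fun β => (τ β).2.2)
    have h4 := card_image_le (s := DB) (f := fun β => (τ β).2.2)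
    have h5 : (univ.filter fun a => Disjoint (g a) (DB.image fun β => (τ β).2.2)) ⊆ DP.image Prod.snd := by
      intro u hu
      refine mem_image.mpr ⟨(s, u), ?_, rfl⟩
      simp only [hDP, mem_filter, mem_univ, true_and]
      by_contra hn
      obtain ⟨w, hw, hadj⟩ := hD _ hn
      rcases adj_P f g τ _ _ hadj with rfl | ⟨β, rfl, hb1, hb2⟩
      · exact hs hw
      · exact absurd (mem_image.mpr ⟨β, by simp [hDB, hw, hb1], rfl⟩)
          (disjoint_left.mp (mem_filter.mp hu).2 hb2)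
    have h6 := le_trans (card_le_card h5) card_image_le
    omega

lemma deg [Fintype Q] [Fintype X] [Fintype U] [Fintype B] [Fintype I] [Fintype J] (r k : ℕ)
    (ι : (Q × I × J) × Fin r → B) (hι : Function.Injective ι) (hτ : ∀ z, τ (ι z) = z.1)
    (h1 : ∀ a, k ≤ (f a).card * Fintype.card J * r)
    (h2 : ∀ a, k ≤ Fintype.card I * (g a).card * r)
    (h3 : k + 1 ≤ Fintype.card B) (v) : k ≤ ((gr f g τ).neighborSet v).ncard := by
  classical
  have key : ∀ (v) (Y : Finset B), (∀ β ∈ Y, (gr f g τ).Adj v (Sum.inr (Sum.inr β))) →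
      Y.card ≤ ((gr f g τ).neighborSet v).ncard := by
    intro v Y hY
    rw [← Set.ncard_coe_finset]
    refine Set.ncard_le_ncard_of_injOn (fun β => Sum.inr (Sum.inr β)) (fun β hβ => hY β hβ) ?_
    intro a _ b _ h
    simpa using h
  rcases v with a | p | β
  · refine le_trans ?_ (key _ (((({a.1} : Finset Q) ×ˢ (f a.2) ×ˢ (univ : Finset J)) ×ˢ (univ : Finset (Fin r))).map ⟨ι, hι⟩) ?_)
    · simpa using h1 a.2
    · intro β hβ
      obtain ⟨z, hz, rfl⟩ := mem_map.mp hβ
      simp only [mem_product, mem_singleton, mem_univ, true_and, and_true] at hz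
      simp [gr, rel, hτ, hz.1, hz.2]
  · refine le_trans ?_ (key _ (((({p.1} : Finset Q) ×ˢ (univ : Finset I) ×ˢ (g p.2.2)) ×ˢ (univ : Finset (Fin r))).map ⟨ι, hι⟩) ?_)
    · simpa using h2 p.2.2
    · intro β hβ
      obtain ⟨z, hz, rfl⟩ := mem_map.mp hβ
      simp only [mem_product, mem_singleton, mem_univ, true_and, and_true] at hz
      simp [gr, rel, hτ, hz.1, hz.2]
  · refine le_trans ?_ (key _ (univ.erase β) ?_)
    · rw [card_erase_of_mem (mem_univ _), card_univ]; omega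
    · intro β' hβ
      simp at hβ
      simp [gr, rel, Ne.symm hβ]

lemma conn (β0 : B) (h : ∀ a : Q × X, ∃ β, (τ β).1 = a.1 ∧ (τ β).2.1 ∈ f a.2) :
    (gr f g τ).Connected := by
  have hB : ∀ β, (gr f g τ).Reachable (Sum.inr (Sum.inr β)) (Sum.inr (Sum.inr β0)) := by
    intro β
    by_cases hb : β = β0
    · rw [hb]
    · exact SimpleGraph.Adj.reachable (by simp [gr, rel, hb])
  have hS : ∀ a, (gr f g τ).Reachable (Sum.inl a) (Sum.inr (Sum.inr β0)) := by
    intro a
    obtain ⟨β, hβ⟩ := h a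
    exact (SimpleGraph.Adj.reachable (by simp [gr, rel, hβ])).trans (hB β)
  rw [SimpleGraph.connected_iff_exists_forall_reachable]
  refine ⟨Sum.inr (Sum.inr β0), ?_⟩
  rintro (a | p | β)
  · exact (hS a).symm
  · exact ((SimpleGraph.Adj.reachable (by simp [gr, rel])).trans (hS (p.1, p.2.1))).symm
  · exact (hB β).symm

lemma upper [Fintype Q] [Fintype X] (β0 : B) :
    ∃ S : Finset ((Q × X) ⊕ (Q × X × U) ⊕ B), S.card ≤ Fintype.card Q * Fintype.card X + 1 ∧
      ∀ v, v ∉ S → ∃ w ∈ S, (gr f g τ).Adj v w := by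
  classical
  refine ⟨insert (Sum.inr (Sum.inr β0)) (univ.image Sum.inl), ?_, ?_⟩
  · refine le_trans (card_insert_le _ _) (Nat.add_le_add_right (le_trans card_image_le ?_) 1)
    simp
  · rintro (a | p | β) h
    · simp at h
    · exact ⟨Sum.inl (p.1, p.2.1), by simp, by simp [gr, rel]⟩
    · refine ⟨Sum.inr (Sum.inr β0), by simp, ?_⟩
      simp at h
      simp [gr, rel, h]

end

lemma build (n k q t x y L L' r : ℕ) (f : Fin x → Finset (Fin L)) (g : Fin y → Finset (Fin L'))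
    (hx : 2 ≤ x) (hk : 1 ≤ k) (hq : 1 ≤ q)
    (h1 : ∀ T : Finset (Fin L), t ≤ T.card + (univ.filter fun a => Disjoint (f a) T).card)
    (h2 : ∀ T : Finset (Fin L'), x + t ≤ T.card + (univ.filter fun a => Disjoint (g a) T).card)
    (d1 : ∀ a, k ≤ (f a).card * L' * r) (d2 : ∀ a, k ≤ L * (g a).card * r)
    (d3 : k + 1 ≤ L * L' * r) (hn : q * (x + x * y + L * L' * r) ≤ n) :
    ∃ G : SimpleGraph (Fin n), G.Connected ∧ (∀ v, k ≤ (G.neighborSet v).ncard) ∧
      (∃ S : Finset (Fin n), S.card ≤ q * x + 1 ∧ ∀ v, v ∉ S → ∃ w ∈ S, G.Adj v w) ∧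
      ∀ D : Finset (Fin n), (∀ v, v ∉ D → ∃ w ∈ D, G.Adj v w) →
        (2 ≤ D.card → ∀ v ∈ D, ∃ w ∈ D, G.Adj v w) → q * (x + t) ≤ D.card := by
  classical
  obtain ⟨m, rfl⟩ := Nat.exists_eq_add_of_le hn
  have hL : 0 < L * L' * r := by omega
  have hL1 : 0 < L := Nat.pos_of_mul_pos_right (Nat.pos_of_mul_pos_right hL)
  have hL2 : 0 < L' := Nat.pos_of_mul_pos_left (Nat.pos_of_mul_pos_right hL)
  have hr : 0 < r := Nat.pos_of_mul_pos_left hL
  let B := ((Fin q × Fin L × Fin L') × Fin r) ⊕ Fin m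
  let z0 : Fin q × Fin L × Fin L' := (⟨0, hq⟩, ⟨0, hL1⟩, ⟨0, hL2⟩)
  let τ : B → Fin q × Fin L × Fin L' := Sum.elim Prod.fst (fun _ => z0)
  let V := (Fin q × Fin x) ⊕ (Fin q × Fin x × Fin y) ⊕ B
  have hc : Fintype.card V = q * (x + x * y + L * L' * r) + m := by
    simp [V, B]; ring
  let e : Fin (q * (x + x * y + L * L' * r) + m) ≃ V := (Fintype.equivFinOfCardEq hc).symm
  let β0 : B := Sum.inl (z0, ⟨0, hr⟩)
  let φ : (gr f g τ).comap e ≃g gr f g τ := SimpleGraph.Iso.comap e _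
  refine ⟨(gr f g τ).comap e, ?_, fun v => ?_, ?_, fun D hD hT => ?_⟩
  · refine φ.connected_iff.mpr (conn f g τ β0 fun a => ?_)
    have : 0 < (f a.2).card := by
      have := d1 a.2
      by_contra h0
      have h0 : (f a.2).card = 0 := by omega
      rw [h0] at this; omega
    obtain ⟨i, hi⟩ := card_pos.mp this
    exact ⟨Sum.inl ((a.1, i, ⟨0, hL2⟩), ⟨0, hr⟩), rfl, hi⟩
  · have := deg f g τ r k Sum.inl Sum.inl_injective (fun z => rfl) (by simpa using d1) (by simpa using d2)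
      (by
        have : L * L' * r ≤ q * (L * L') * r := Nat.mul_le_mul_right _ (Nat.le_mul_of_pos_left _ hq)
        simp [B]; omega) (e v)
    refine le_trans this (le_of_eq ?_)
    exact (Set.ncard_congr' (φ.mapNeighborSet v)).symm
  · obtain ⟨S, hS1, hS2⟩ := upper f g τ β0
    refine ⟨S.map e.symm.toEmbedding, by simpa using hS1, fun v hv => ?_⟩
    obtain ⟨w, hw, hadj⟩ := hS2 (e v) (by simpa using hv)
    exact ⟨e.symm w, by simpa using hw, by simpa using hadj⟩
  · have := lower f g τ t (by simpa using hx) h1 (by simpa using h2) (D.map e.toEmbedding)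
      (fun v hv => by
        obtain ⟨w, hw, hadj⟩ := hD (e.symm v) (by simpa using hv)
        exact ⟨e w, by simpa using hw, by simpa using hadj⟩)
      (fun h v hv => by
        obtain ⟨w, hw, hadj⟩ := hT (by simpa using h) (e.symm v) (by simpa using hv)
        exact ⟨e w, by simpa using hw, by simpa using hadj⟩)
    simpa using this

end Pool.Agent.H.MP_af1bb3_co
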