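import Mathlib
import Pool.Agent.H.MP_af1bb3_co.B

namespace Pool.Agent.H.MP_af1bb3_co

open Finset

lemma loglog_ge (A : ℝ) (k : ℕ) (hk : ⌈Real.exp (Real.exp A)⌉₊ ≤ k) :
    1 ≤ k ∧ A ≤ Real.log (Real.log ((k:ℝ) + 1)) ∧
      Real.exp (Real.exp (Real.log (Real.log ((k:ℝ) + 1)))) = (k:ℝ) + 1 := by
  have h1 : Real.exp (Real.exp A) ≤ k := le_trans (Nat.le_ceil _) (by exact_mod_cast hk)
  have h0 := Real.exp_pos (Real.exp A)
  have h2 : Real.exp A ≤ Real.log ((k:ℝ) + 1) := by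
    rw [Real.le_log_iff_exp_le (by positivity)]; linarith
  have h3 := Real.exp_pos A
  refine ⟨?_, ?_, ?_⟩
  · have : (0:ℝ) < k := by linarith
    exact_mod_cast this
  · rw [Real.le_log_iff_exp_le (by linarith)]; exact h2
  · rw [Real.exp_log (by linarith), Real.exp_log (by positivity)]

lemma size1 (C t x u : ℝ) (hC : 4 ≤ C) (hu : 324 * C ^ 6 ≤ u) (ht0 : 0 ≤ t) (ht : t ≤ (C - 3) * u + 2)
    (hx : x ≤ 2 * C * t ^ 2 * Real.exp (t / (C - 2))) : 9 * x ≤ Real.exp u := by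
  have hC6 : (1:ℝ) ≤ C ^ 6 := one_le_pow₀ (by linarith)
  have hu1 : 1 ≤ u := by linarith
  have hC0 : 0 < C := by linarith
  have h1 : t ≤ C * u := by nlinarith
  have h2 : t / (C - 2) ≤ u - u / C + 1 := by
    rw [div_le_iff₀ (by linarith)]
    have : u / C * (C - 2) ≤ u := by
      rw [div_mul_eq_mul_div, div_le_iff₀ hC0]; nlinarith
    nlinarith
  have h3 : Real.exp (t / (C - 2)) * Real.exp (u / C) ≤ Real.exp u * 3 := by
    rw [← Real.exp_add]
    refine le_trans (Real.exp_le_exp.mpr (show _ ≤ u + 1 by linarith)) ?_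
    rw [Real.exp_add]
    exact mul_le_mul_of_nonneg_left (by have := Real.exp_one_lt_d9; linarith) (Real.exp_pos _).le
  have h4 : 54 * C ^ 3 * u ^ 2 ≤ Real.exp (u / C) := by
    refine le_trans ?_ (Real.pow_div_factorial_le_exp (u / C) (by positivity) 3)
    rw [div_pow, div_div, le_div_iff₀ (by positivity)]
    have : (Nat.factorial 3 : ℝ) = 6 := by norm_num [Nat.factorial]
    rw [this]
    have h5 : 0 ≤ u ^ 2 := by positivity
    nlinarith
  have h5 : t ^ 2 ≤ (C * u) ^ 2 := pow_le_pow_left₀ ht0 h1 2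
  have h6 : x ≤ 2 * C * (C * u) ^ 2 * Real.exp (t / (C - 2)) := by
    refine le_trans hx ?_
    gcongr
  have hE := Real.exp_pos (t / (C - 2))
  have h7 : Real.exp (t / (C - 2)) * (54 * C ^ 3 * u ^ 2) ≤ Real.exp u * 3 :=
    le_trans (mul_le_mul_of_nonneg_left h4 hE.le) h3
  nlinarith

lemma size2 (C t x y : ℝ) (hC : 4 ≤ C) (hCt : C ≤ t) (htx : t ≤ x) (hy0 : 0 ≤ y)
    (hy : y ≤ 2 * C * (x + t) ^ 2 * Real.exp ((x + t) / (C - 2))) :
    x + x * y + C * (C * t * (x + t)) < Real.exp (9 * x) := by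
  have hx : 4 ≤ x := by linarith
  have h1 : Real.exp ((x + t) / (C - 2)) ≤ Real.exp (2 * x) := by
    rw [Real.exp_le_exp, div_le_iff₀ (by linarith)]; nlinarith
  have h2 : y ≤ 2 * x * (x + x) ^ 2 * Real.exp (2 * x) := by
    refine le_trans hy ?_
    have : 0 ≤ t := by linarith
    gcongr
    linarith
  have h3 : C * (C * t * (x + t)) ≤ x * (x * x * (x + x)) := by
    have : 0 ≤ t := by linarith
    have : C ≤ x := by linarith
    gcongr
  have h4 : 1 ≤ Real.exp (2 * x) := Real.one_le_exp (by linarith)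
  have h5 : x ≤ x ^ 4 := le_self_pow₀ (by linarith) (by norm_num)
  have h6 : x * y ≤ 8 * x ^ 4 * Real.exp (2 * x) := by
    have := mul_le_mul_of_nonneg_left h2 (show 0 ≤ x by linarith)
    nlinarith
  have h7 : 0 < x ^ 4 := by positivity
  have h8 : x + x * y + C * (C * t * (x + t)) ≤ 11 * x ^ 4 * Real.exp (2 * x) := by nlinarith
  refine lt_of_le_of_lt h8 ?_
  have h9 : x ^ 4 ≤ Real.exp (4 * x) := by
    have : (4:ℝ) * x = ((4:ℕ):ℝ) * x := by norm_num
    rw [this, Real.exp_nat_mul]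
    exact pow_le_pow_left₀ (by linarith) (by have := Real.add_one_le_exp x; linarith) 4
  have h10 : 11 < Real.exp (3 * x) := by have := Real.add_one_le_exp (3 * x); linarith
  have : (9:ℝ) * x = 3 * x + 4 * x + 2 * x := by ring
  rw [this, Real.exp_add, Real.exp_add]
  refine mul_lt_mul_of_pos_right ?_ (Real.exp_pos _)
  exact mul_lt_mul h10 h9 h7 (Real.exp_pos _).le

lemma main (ε : ℝ) (hε : 0 < ε) : ∃ k₀ C₀ : ℕ, ∀ k n : ℕ, k₀ ≤ k → C₀ * k ≤ n →
    ∃ G : SimpleGraph (Fin n), G.Connected ∧ (∀ v, k ≤ (G.neighborSet v).ncard) ∧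
      ∃ S : Finset (Fin n), (∀ v, v ∉ S → ∃ w ∈ S, G.Adj v w) ∧
      ∀ D : Finset (Fin n), (∀ v, v ∉ D → ∃ w ∈ D, G.Adj v w) →
        (2 ≤ D.card → ∀ v ∈ D, ∃ w ∈ D, G.Adj v w) →
        (1 - ε) * ((n:ℝ) / ((k:ℝ) + 1)) * Real.log (Real.log ((k:ℝ) + 1)) ≤ (D.card:ℝ) - S.card := by
  classical
  obtain ⟨C, hC4, hCε⟩ : ∃ C : ℕ, 4 ≤ C ∧ 5 ≤ ε * ((C:ℝ) + 1) := by
    refine ⟨⌈5 / ε⌉₊ + 4, by omega, ?_⟩
    have := Nat.le_ceil (5 / ε)
    rw [div_le_iff₀ hε] at this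
    push_cast; nlinarith
  have hC : (4:ℝ) ≤ C := by exact_mod_cast hC4
  refine ⟨⌈Real.exp (Real.exp (324 * (C:ℝ) ^ 6))⌉₊, C * (C + 1), fun k n hk hn => ?_⟩
  obtain ⟨hk1, hu, hexp⟩ := loglog_ge _ k hk
  set u := Real.log (Real.log ((k:ℝ) + 1)) with hudef
  have hC6 : (1:ℝ) ≤ (C:ℝ) ^ 6 := one_le_pow₀ (by linarith)
  have hu3 : 3 ≤ u := by linarith
  set t := ⌈((C:ℝ) - 3) * u⌉₊ + 1 with htdef
  have ht1 : ((C:ℝ) - 3) * u + 1 ≤ t := by
    rw [htdef]; push_cast; have := Nat.le_ceil (((C:ℝ) - 3) * u); linarith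
  have ht2 : (t:ℝ) ≤ ((C:ℝ) - 3) * u + 2 := by
    rw [htdef]; push_cast
    have := Nat.ceil_lt_add_one (show 0 ≤ ((C:ℝ) - 3) * u by nlinarith); linarith
  have hCt : (C:ℝ) ≤ t := by nlinarith
  have hCt' : C ≤ t := by exact_mod_cast hCt
  obtain ⟨x, f, f1, f2, f3⟩ := sys C t (by omega) (by omega)
  have htx : t ≤ x := by
    have := f2 ∅
    simpa using this
  obtain ⟨y, g, g1, g2, g3⟩ := sys C (x + t) (by omega) (by omega)
  have hF : x + x * y + C * (C * t * (x + t)) ≤ k := by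
    have h1 := size1 C t x u hC hu (by positivity) ht2 f3
    have h2 := size2 C t x y hC hCt (by exact_mod_cast htx) (by positivity) (by exact_mod_cast g3)
    have h3 : Real.exp (9 * x) ≤ (k:ℝ) + 1 := by rw [← hexp]; exact Real.exp_le_exp.mpr h1
    have h4 : ((x + x * y + C * (C * t * (x + t)) : ℕ) : ℝ) < ((k + 1 : ℕ) : ℝ) := by
      push_cast; linarith
    have := Nat.cast_lt.mp h4
    omega
  set w := C * t * (x + t) with hw
  have hw0 : 0 < w := by rw [hw]; exact Nat.mul_pos (Nat.mul_pos (by omega) (by omega)) (by omega)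
  set r := k / w + 1 with hr
  have hr1 : k < w * r := Nat.lt_mul_div_succ k hw0
  have hr2 : w * r ≤ k + w := by
    rw [hr, mul_add, mul_one]; exact Nat.add_le_add_right (Nat.mul_div_le k w) _
  set q := n / ((C + 1) * k) with hq
  have hck : 0 < (C + 1) * k := Nat.mul_pos (by omega) hk1
  have hqC : C ≤ q := by
    rw [hq, Nat.le_div_iff_mul_le hck, ← mul_assoc]; exact hn
  have hLL : C * t * (C * (x + t)) * r = C * (w * r) := by rw [hw]; ring
  obtain ⟨G, hG1, hG2, ⟨S, hS1, hS2⟩, hG3⟩ := build n k q t x y (C * t) (C * (x + t)) r f g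
    (by omega) hk1 (by omega) f2 g2
    (fun a => by rw [f1, show t * (C * (x + t)) * r = w * r by rw [hw]; ring]; omega)
    (fun a => by rw [g1]; exact hr1.le)
    (by rw [hLL]; exact le_trans hr1 (Nat.le_mul_of_pos_left _ (by omega)))
    (by
      refine le_trans (Nat.mul_le_mul_left q ?_) (Nat.div_mul_le_self n ((C + 1) * k))
      rw [hLL]
      have e0 := Nat.mul_le_mul_left C hr2
      have e1 : (C + 1) * k = C * k + k := by ring
      have e2 : C * (k + w) = C * k + C * w := by ring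
      linarith)
  refine ⟨G, hG1, hG2, S, hS2, fun D hD hT => ?_⟩
  have h1 := hG3 D hD hT
  have h1' : (q:ℝ) * (x + t) ≤ D.card := by exact_mod_cast h1
  have h2' : (S.card:ℝ) ≤ q * x + 1 := by exact_mod_cast hS1
  have hq' : (C:ℝ) ≤ q := by exact_mod_cast hqC
  have hnq : (n:ℝ) ≤ ((C:ℝ) + 1) * k * (q + 1) := by
    have := Nat.lt_mul_div_succ n hck
    exact_mod_cast this.le
  have hb : (n:ℝ) / ((k:ℝ) + 1) ≤ ((C:ℝ) + 1) * (q + 1) := by
    rw [div_le_iff₀ (by positivity)]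
    have : (0:ℝ) ≤ ((C:ℝ) + 1) * (q + 1) := by positivity
    nlinarith
  have hb0 : 0 ≤ (n:ℝ) / ((k:ℝ) + 1) := by positivity
  set b := (n:ℝ) / ((k:ℝ) + 1)
  have h3 : (1 - ε) * b ≤ ((C:ℝ) - 3) * q := by
    have h4 : ((C:ℝ) + 1) * ((1 - ε) * b) ≤ ((C:ℝ) - 4) * b := by nlinarith
    have h5 : ((C:ℝ) - 4) * b ≤ ((C:ℝ) - 4) * (((C:ℝ) + 1) * (q + 1)) :=
      mul_le_mul_of_nonneg_left hb (by linarith)
    have h6 : (1 - ε) * b ≤ ((C:ℝ) - 4) * (q + 1) := by
      apply le_of_mul_le_mul_left _ (show 0 < (C:ℝ) + 1 by linarith)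
      linarith
    nlinarith
  have h7 := mul_le_mul_of_nonneg_right h3 (show 0 ≤ u by linarith)
  have h8 := mul_le_mul_of_nonneg_left ht1 (show (0:ℝ) ≤ q by linarith)
  nlinarith

end Pool.Agent.H.MP_af1bb3_co
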